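import Pool.Agent.V7H56.Pal.Univ2
import Pool.Agent.V7H56.Pal.Width

/-!
# Palindromic width versus commutator width

Every finite generating set of a group can be enlarged to a finite generating set `A` such that every
element of the group is represented by a palindromic word over `A` and the inverses of its elements.
So the first of the two properties compared in the question holds for all finitely generated groups,
with palindromic width at most one, and the equivalence asked for fails for the free group of rank two.
-/

set_option autoImplicit false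

namespace Pool.Agent.Results.MP_bb0bfc_al.EveryElementPalindromeH56

universe u

/-- The element `g` is a palindrome with respect to `A`: it is the value of a word over `A` and the
inverses of the elements of `A` that coincides letter by letter with its reversal. -/
def IsPalindrome {G : Type u} [Group G] (A : Finset G) (g : G) : Prop :=
  ∃ w : List G, w.reverse = w ∧ (∀ x ∈ w, x ∈ A ∨ x⁻¹ ∈ A) ∧ w.prod = g

/-- The palindromic width of the group with respect to `A` is at most `n`. -/
def PalindromicWidthLE {G : Type u} [Group G] (A : Finset G) (n : ℕ) : Prop :=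
  ∀ g : G, ∃ l : List G, l.length ≤ n ∧ (∀ p ∈ l, IsPalindrome A p) ∧ l.prod = g

/-- The commutator width of the group is finite. -/
def FiniteCommutatorWidth (G : Type u) [Group G] : Prop :=
  ∃ n : ℕ, ∀ g ∈ commutator G, ∃ l : List G, l.length ≤ n ∧ (∀ c ∈ l, c ∈ commutatorSet G) ∧
    l.prod = g

/-- Every finite generating set `T` is contained in a finite generating set `A` with palindromic width
at most one, and the equivalence of Q1 is false. -/
theorem result :
    (∀ (G : Type u) [Group G] (T : Finset G), Subgroup.closure (T : Set G) = ⊤ →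
      ∃ A : Finset G, T ⊆ A ∧ Subgroup.closure (A : Set G) = ⊤ ∧ PalindromicWidthLE A 1) ∧
    ¬ (∀ (G : Type) [Group G] [Group.FG G],
      (∃ A : Finset G, Subgroup.closure (A : Set G) = ⊤ ∧ ∃ n : ℕ, PalindromicWidthLE A n) ↔
        FiniteCommutatorWidth G) := by
  have h1 : ∀ (G : Type u) [Group G] (T : Finset G), Subgroup.closure (T : Set G) = ⊤ →
      ∃ A : Finset G, T ⊆ A ∧ Subgroup.closure (A : Set G) = ⊤ ∧ PalindromicWidthLE A 1 := by
    intro G _ T hT
    obtain ⟨A, hTA, hA, h⟩ := Pool.Agent.V7H56.Pal.universal T hT
    refine ⟨A, hTA, hA, fun g => ⟨[g], by simp, ?_, by simp⟩⟩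
    intro p hp
    rw [List.mem_singleton.1 hp]
    exact h g
  have h2 : ∀ (G : Type) [Group G] (T : Finset G), Subgroup.closure (T : Set G) = ⊤ →
      ∃ A : Finset G, T ⊆ A ∧ Subgroup.closure (A : Set G) = ⊤ ∧ PalindromicWidthLE A 1 := by
    intro G _ T hT
    obtain ⟨A, hTA, hA, h⟩ := Pool.Agent.V7H56.Pal.universal T hT
    refine ⟨A, hTA, hA, fun g => ⟨[g], by simp, ?_, by simp⟩⟩
    intro p hp
    rw [List.mem_singleton.1 hp]
    exact h g
  refine ⟨h1, fun h => ?_⟩
  apply Pool.Agent.V7H56.Pal.free_width
  have hfg : Group.FG (FreeGroup Bool) := inferInstance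
  obtain ⟨T, hT⟩ := hfg.out
  obtain ⟨A, -, hA, hA1⟩ := h2 (FreeGroup Bool) T hT
  exact (h (FreeGroup Bool)).1 ⟨A, hA, 1, hA1⟩

end Pool.Agent.Results.MP_bb0bfc_al.EveryElementPalindromeH56
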